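import Pool.Agent.H629.CG.Stm

/-!
# MP_e22585_pr: from the fields of the problem to the internal fields (CNV)
-/

set_option autoImplicit false

namespace Pool.Agent.H903.CG.CNV

open MeasureTheory ProbabilityTheory Filter Topology Set
open scoped ENNReal NNReal
open Pool.Agent.H629.CG

variable {r : ℝ → ℝ} {c : Bool}

theorem gap_nonneg {s t : ℝ} (hs : s ∈ Ico (0 : ℝ) 1) (ht : t ∈ Ico (0 : ℝ) 1) :
    0 ≤ gap c s t := by
  have h1 : |s - t| ≤ 1 := by
    rw [abs_le]
    constructor <;> linarith [hs.1, hs.2, ht.1, ht.2]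
  unfold gap
  split_ifs
  · exact le_min (abs_nonneg _) (by linarith)
  · exact abs_nonneg _

theorem gap_lt_one {s t : ℝ} (hs : s ∈ Ico (0 : ℝ) 1) (ht : t ∈ Ico (0 : ℝ) 1) :
    gap c s t < 1 := by
  have h1 : |s - t| < 1 := by
    rw [abs_lt]
    constructor <;> linarith [hs.1, hs.2, ht.1, ht.2]
  unfold gap
  split_ifs
  · exact (min_le_left _ _).trans_lt h1
  · exact h1

theorem gap_true_le {s t : ℝ} : gap true s t ≤ 1 / 2 := by
  unfold gap
  simp only [if_true]
  rcases le_total |s - t| (1 / 2) with h | h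
  · exact (min_le_left _ _).trans h
  · exact (min_le_right _ _).trans (by linarith)

/-- The value of `r` at a difference. -/
theorem r_gap (hr : Admissible r c) {s t : ℝ} (hs : s ∈ Ico (0 : ℝ) 1) (ht : t ∈ Ico (0 : ℝ) 1)
    (hg : 0 < gap c s t) : r (s - t) = r (gap c s t) := by
  have h1 : |s - t| < 1 := by
    rw [abs_lt]
    constructor <;> linarith [hs.1, hs.2, ht.1, ht.2]
  have h0 : 0 < |s - t| := by
    refine hg.trans_le ?_
    unfold gap
    split_ifs
    · exact min_le_left _ _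
    · exact le_rfl
  have h2 : r (s - t) = r |s - t| := by
    rcases le_total 0 (s - t) with h | h
    · rw [abs_of_nonneg h]
    · rw [abs_of_nonpos h]
      have h3 := hr.even (-(s - t)) ⟨by rw [abs_of_nonpos h] at h0; exact h0,
        by rw [abs_of_nonpos h] at h1; exact h1⟩
      rw [neg_neg] at h3
      exact h3
  rw [h2]
  unfold gap
  split_ifs with hc
  · rcases min_choice |s - t| (1 - |s - t|) with h | h
    · rw [h]
    · rw [h, hr.circle hc _ ⟨h0, h1⟩]
  · rfl

theorem cova_eq (hr : Admissible r c) {μ ε s t : ℝ} (hε : 0 < ε) (hs : s ∈ Ico (0 : ℝ) 1)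
    (ht : t ∈ Ico (0 : ℝ) 1) : cova μ r c ε s t = kk μ r c ε s t := by
  unfold cova kk rho
  split_ifs with h
  · rw [r_gap hr hs ht (hε.trans_le h)]
    ring
  · rfl

theorem gauss {Ω : Type} [MeasurableSpace Ω] {P : Measure Ω} {X : ℝ → Ω → ℝ}
    (hX : IsGaussianProcess (fun t : Ico (0 : ℝ) 1 => X t) P) (n : ℕ) (t : Fin n → ℝ)
    (ht : ∀ i, t i ∈ Ico (0 : ℝ) 1) : HasGaussianLaw (fun ω (i : Fin n) => X (t i) ω) P := by
  classical
  let I : Finset (Ico (0 : ℝ) 1) := Finset.univ.image (fun i => ⟨t i, ht i⟩)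
  have hI : ∀ i, (⟨t i, ht i⟩ : Ico (0 : ℝ) 1) ∈ I := fun i =>
    Finset.mem_image_of_mem _ (Finset.mem_univ i)
  let L : (I → ℝ) →L[ℝ] (Fin n → ℝ) :=
    ContinuousLinearMap.pi fun i => ContinuousLinearMap.proj ⟨⟨t i, ht i⟩, hI i⟩
  exact (hX.hasGaussianLaw I).map_fun L

theorem log_bound (hr : Admissible r c) {δ : ℝ} (hδ : 0 < δ) :
    ∃ B : ℝ, 0 ≤ B ∧ ∀ s ∈ Ico (0 : ℝ) 1, ∀ t ∈ Ico (0 : ℝ) 1, δ ≤ gap c s t →
      |Real.log (r (gap c s t))| ≤ B := by
  cases c with
  | true =>
    have h1 : ContinuousOn (fun x => Real.log (r x)) (Icc δ (1 / 2)) := by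
      refine ContinuousOn.log (hr.smooth.continuousOn.mono fun x hx => ?_) fun x hx => ?_
      · exact ⟨hδ.trans_le hx.1, by linarith [hx.2]⟩
      · exact (hr.pos x ⟨hδ.trans_le hx.1, by linarith [hx.2]⟩).ne'
    obtain ⟨B, hB⟩ := isCompact_Icc.exists_bound_of_continuousOn h1
    refine ⟨|B|, abs_nonneg _, fun s _ t _ h => ?_⟩
    have := hB (gap true s t) ⟨h, gap_true_le⟩
    rw [Real.norm_eq_abs] at this
    exact this.trans (le_abs_self _)
  | false =>
    obtain ⟨h1, h2⟩ := hr.interval rfl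
    have h3 : ContinuousOn r (Icc δ 1) := by
      intro x hx
      rcases hx.2.eq_or_lt with e | e
      · rw [e, ContinuousWithinAt, h1]
        have h4 : Tendsto r (𝓝[≤] 1) (𝓝 1) := by
          rw [← Iio_insert, nhdsWithin_insert, tendsto_sup]
          refine ⟨?_, h2⟩
          have := tendsto_pure_nhds r (1 : ℝ)
          rwa [h1] at this
        exact h4.mono_left (nhdsWithin_mono _ fun y hy => hy.2)
      · exact (hr.smooth.continuousOn.continuousAt
          (Ioo_mem_nhds (hδ.trans_le hx.1) e)).continuousWithinAt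
    have h4 : ContinuousOn (fun x => Real.log (r x)) (Icc δ 1) := by
      refine ContinuousOn.log h3 fun x hx => ?_
      rcases hx.2.eq_or_lt with e | e
      · rw [e, h1]
        exact one_ne_zero
      · exact (hr.pos x ⟨hδ.trans_le hx.1, e⟩).ne'
    obtain ⟨B, hB⟩ := isCompact_Icc.exists_bound_of_continuousOn h4
    refine ⟨|B|, abs_nonneg _, fun s hs t ht h => ?_⟩
    have := hB (gap false s t) ⟨h, (gap_lt_one hs ht).le⟩
    rw [Real.norm_eq_abs] at this
    exact this.trans (le_abs_self _)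

theorem kk_bound (hr : Admissible r c) {μ ε : ℝ} (hμ : 0 < μ) (hε : 0 < ε) :
    ∃ V, ∀ s ∈ Ico (0 : ℝ) 1, ∀ t ∈ Ico (0 : ℝ) 1, |kk μ r c ε s t| ≤ V := by
  obtain ⟨B, hB0, hB⟩ := log_bound hr hε
  set D := ε * deriv (fun x => Real.log (r x)) ε with hD
  refine ⟨μ * (B + (|Real.log (r ε)| + |D|)), fun s hs t ht => ?_⟩
  unfold kk
  rw [abs_mul, abs_of_pos hμ]
  refine mul_le_mul_of_nonneg_left ?_ hμ.le
  have hA : 0 ≤ |Real.log (r ε)| + |D| := by positivity
  unfold rho
  split_ifs with h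
  · rw [abs_neg]
    linarith [hB s hs t ht h]
  · rw [not_le] at h
    have h1 : |(1 - gap c s t / ε) * D| ≤ |D| := by
      rw [abs_mul]
      have h2 : |1 - gap c s t / ε| ≤ 1 := by
        have h3 : 0 ≤ gap c s t / ε := div_nonneg (gap_nonneg hs ht) hε.le
        have h4 : gap c s t / ε < 1 := (div_lt_one hε).2 h
        rw [abs_le]
        constructor <;> linarith
      exact mul_le_of_le_one_left (abs_nonneg _) h2
    calc |(-Real.log (r ε)) + (1 - gap c s t / ε) * D| ≤
        |-Real.log (r ε)| + |(1 - gap c s t / ε) * D| := abs_add_le _ _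
      _ ≤ |Real.log (r ε)| + |D| := by
          rw [abs_neg]
          linarith
      _ ≤ _ := by linarith

theorem meas_gap : Measurable (fun u => gap c u 0) := by
  unfold gap
  cases c with
  | true =>
    simp only [if_true]
    fun_prop
  | false =>
    simp only [Bool.false_eq_true, if_false]
    fun_prop

theorem meas_r (hr : Admissible r c) : Measurable (fun u => (Ioo (0 : ℝ) 1).indicator r u) := by
  classical
  have h := ContinuousOn.measurable_piecewise (f := r) (g := fun _ => (0 : ℝ))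
    hr.smooth.continuousOn continuousOn_const (measurableSet_Ioo (a := (0 : ℝ)) (b := 1))
  have h1 : (fun u => (Ioo (0 : ℝ) 1).indicator r u) =
      (Ioo (0 : ℝ) 1).piecewise r (fun _ => (0 : ℝ)) := by
    funext u
    by_cases hu : u ∈ Ioo (0 : ℝ) 1
    · rw [indicator_of_mem hu, piecewise_eq_of_mem _ _ _ hu]
    · rw [indicator_of_notMem hu, piecewise_eq_of_notMem _ _ _ hu]
  rw [h1]
  exact h

theorem zero_mem : (0 : ℝ) ∈ Ico (0 : ℝ) 1 := ⟨le_rfl, one_pos⟩

theorem meas_kk (hr : Admissible r c) {μ ε : ℝ} (hε : 0 < ε) :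
    Measurable (fun u => (Ico (0 : ℝ) 1).indicator (fun u => kk μ r c ε u 0) u) := by
  have h1 : (fun u => (Ico (0 : ℝ) 1).indicator (fun u => kk μ r c ε u 0) u) =
      (Ico (0 : ℝ) 1).indicator (fun u => μ * (if ε ≤ gap c u 0 then
        -Real.log ((Ioo (0 : ℝ) 1).indicator r (gap c u 0))
        else -Real.log (r ε) + (1 - gap c u 0 / ε) *
          (ε * deriv (fun x => Real.log (r x)) ε))) := by
    funext u
    by_cases hu : u ∈ Ico (0 : ℝ) 1
    swap
    · rw [indicator_of_notMem hu, indicator_of_notMem hu]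
    rw [indicator_of_mem hu, indicator_of_mem hu]
    unfold kk rho
    split_ifs with h
    · rw [indicator_of_mem]
      exact ⟨hε.trans_le h, gap_lt_one hu zero_mem⟩
    · rfl
  rw [h1]
  refine Measurable.indicator (Measurable.const_mul (Measurable.ite ?_ ?_ ?_) _) measurableSet_Ico
  · exact measurableSet_le measurable_const meas_gap
  · exact (Real.measurable_log.comp ((meas_r hr).comp meas_gap)).neg
  · exact (((meas_gap.div_const ε).const_sub 1).mul_const _).const_add _

theorem t_CNV : S_R1 → S_R2 → S_LNM → S_CNV := by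
  intro _ hR2 hLNM μ r c hμ hr
  have hprof : Prof r := ⟨hr.pos, hr.smooth, hr.logder⟩
  refine ⟨hprof, ?_, fun ε hε _ => kk_bound hr hμ hε, fun ε hε _ => meas_kk hr hε, meas_r hr,
    ?_, ?_, ?_, ?_⟩
  · intro ε hε _ Ω _ P X hX
    have hP := hX.gauss.isProbabilityMeasure
    have hL : LNF (Ico 0 1) P X (kk μ r c ε) := by
      refine ⟨hX.meas, gauss hX.gauss, fun t ht => ?_, fun s hs t ht => ?_⟩
      · rw [hX.mean t ht, ← cova_eq hr hε ht ht, ← hX.cov t ht t ht, covariance_self]
        exact (hX.meas.comp measurable_prodMk_left).aemeasurable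
      · rw [hX.cov s hs t ht, cova_eq hr hε hs ht]
    refine ⟨hP, hL, fun u hu => ?_⟩
    have h1 := hLNM Ω P (Ico 0 1) X _ hL u hu 1
    simp only [ENNReal.rpow_one] at h1
    rw [h1]
    unfold ex
    norm_num
  · obtain ⟨C, hC0, -, hC, -, -⟩ := (hR2 r hprof).2.1
    obtain ⟨B, hB0, hB⟩ := log_bound hr (show (0 : ℝ) < 1 / 2 by norm_num)
    refine ⟨μ * (C + B), fun ε hε hε4 u hu => ?_⟩
    unfold kk
    have h1 : -(C + B) ≤ rho r ε (gap c u 0) := by
      rcases le_total (gap c u 0) (1 / 2) with h | h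
      · have := (hC ε (gap c u 0) hε (by linarith) (gap_nonneg hu zero_mem) h).1
        linarith
      · unfold rho
        rw [if_pos (by linarith)]
        have := (abs_le.1 (hB u hu 0 zero_mem h)).2
        linarith
    nlinarith
  · intro q ε u hε _ hu hg
    have hu' : u ∈ Ico (0 : ℝ) 1 := ⟨hu.1.le, hu.2⟩
    have h1 := r_gap hr hu' zero_mem (hε.trans_le hg)
    rw [sub_zero] at h1
    unfold kk rho
    rw [if_pos hg, ← h1, Real.rpow_def_of_pos (hr.pos u hu)]
    congr 1
    ring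
  · intro q δ hδ
    obtain ⟨B, hB0, hB⟩ := log_bound hr hδ
    refine ⟨Real.exp (|μ * q| * B), fun u hu hg => ?_⟩
    have hu' : u ∈ Ico (0 : ℝ) 1 := ⟨hu.1.le, hu.2⟩
    have h1 := r_gap hr hu' zero_mem (hδ.trans_le hg)
    rw [sub_zero] at h1
    rw [Real.rpow_def_of_pos (hr.pos u hu)]
    refine Real.exp_le_exp.2 ?_
    have h2 := hB u hu' 0 zero_mem hg
    rw [← h1] at h2
    calc Real.log (r u) * (μ * q) ≤ |Real.log (r u) * (μ * q)| := le_abs_self _
      _ = |μ * q| * |Real.log (r u)| := by rw [abs_mul, mul_comm]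
      _ ≤ _ := mul_le_mul_of_nonneg_left h2 (abs_nonneg _)
  · intro q
    have h1 : Tendsto (fun ε : ℝ => Real.exp (q * (q + 1) / 2 * μ *
        (ε * deriv (fun x => Real.log (r x)) ε - 1))) (𝓝[>] 0) (𝓝 1) := by
      have h2 : Tendsto (fun ε : ℝ => q * (q + 1) / 2 * μ *
          (ε * deriv (fun x => Real.log (r x)) ε - 1)) (𝓝[>] 0) (𝓝 0) := by
        have h3 := (hr.logder.sub_const 1).const_mul (q * (q + 1) / 2 * μ)
        rw [sub_self, mul_zero] at h3
        exact h3
      have h4 := (Real.continuous_exp.tendsto 0).comp h2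
      rw [Real.exp_zero] at h4
      exact h4
    refine h1.congr' ?_
    filter_upwards [self_mem_nhdsWithin] with ε hε
    have hε' : (0 : ℝ) < ε := hε
    have hg : gap c 0 0 = 0 := by
      unfold gap
      split_ifs <;> simp
    unfold kk rho
    rw [hg, if_neg (not_le.2 hε'), ← Real.exp_add]
    congr 1
    rw [zero_div]
    ring

end Pool.Agent.H903.CG.CNV
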